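import Pool.Agent.Y132.SI.Gam

/-!
# The derivatives of the gamma polynomial at `1/4`, and the last gamma number

`G` is a graph on `Fin n`, `cliques G` its flag complex.  `HSph d G`: the flag complex is a real homology
`(d-1)`-sphere, i.e. the link of every simplex `T` has the reduced real homology of the sphere of dimension
`d - 1 - |T|`.  `lk G T` is the set of the vertices of the link of `T`.

The class `AM d` contains the order complexes of the graded posets of length `d` which are Gorenstein* over `F_2`
(for example the barycentric subdivisions of all the triangulated `(d-1)`-spheres), is closed under full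
subcomplexes, isomorphisms, edge subdivisions, joins, `d ↦ d + 1` and gluing along full subcomplexes of the class
`d - 2`, and contains, for `d = 2 m + 2`, every flag complex all of whose vertex links are in the class `2 m + 1`.
The class `AQ` is larger.

If `γ(t) = ∑ γ i t ^ i` is the gamma polynomial then `∑ (i choose m) γ i / 4 ^ i` is `4 ^ (-m) / m!` times the `m`-th
derivative of `γ` at `1 / 4`.  Gal's conjecture `γ i ≥ 0` implies that all these numbers are nonnegative; for
`m = d / 2` (integer part) it is the assertion `γ m ≥ 0`.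
-/

set_option autoImplicit false

namespace Pool.Agent.Results.MP_19e880_co.L2Class

open Pool.Agent.W497.FS Pool.Agent.W907.SG Pool.Agent.W907.SM Pool.Agent.TH652.Above Pool.Agent.Y132.SI

/-- Let the flag complex of `G` be a real homology `(d-1)`-sphere with the gamma-vector `γ`, and let `2 m ≤ d`.
If `G` is in the class `AM d`, or if the links of all the simplices with `d - 2 m` elements are in the class
`AQ (2 m)`, then the `m`-th derivative of the gamma polynomial at `1/4` is nonnegative, and for `m = d / 2` (integer
part) `γ m ≥ 0`. -/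
theorem result (n d : ℕ) (G : SimpleGraph (Fin n)) (hS : HSph d G) (γ : ℕ → ℤ) (hγ : IsGamma d (cliques G) γ)
    (m : ℕ) (hm : 2 * m ≤ d)
    (hC : AM d G ∨ ∀ T : Finset (Fin n), G.IsClique (T : Set (Fin n)) → T.card + 2 * m = d →
      AQ (2 * m) (G.induce (lk G T))) :
    (0 : ℚ) ≤ ∑ i ∈ Finset.range (d / 2 + 1), (i.choose m : ℚ) * γ i / 4 ^ i ∧ (m = d / 2 → 0 ≤ γ m) := by
  classical
  have hd : ∀ F ∈ cliques G, F.card ≤ d := fun F hF => Pool.Agent.TH652.Dual.no_big hS (mem_cliques.1 hF)
  have h1 := sum_links hS hm hC
  have h2 : ∑ σ ∈ cliques G, (σ.card.choose (d - 2 * m) : ℚ) * (-1 / 2) ^ (σ.card - (d - 2 * m)) =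
      ∑ σ : Finset (Fin n), if G.IsClique (σ : Set (Fin n)) then
        (σ.card.choose (d - 2 * m) : ℚ) * (-1 / 2 : ℚ) ^ (σ.card - (d - 2 * m)) else 0 := by
    rw [cliques, Finset.sum_filter]
  have h3 : (0 : ℚ) ≤ ∑ i ∈ Finset.range (d / 2 + 1), (i.choose m : ℚ) * γ i / 4 ^ i := by
    refine gamma_quarter hd hγ hm ?_
    rw [h2]
    convert h1
  refine ⟨h3, ?_⟩
  rintro rfl
  rw [Finset.sum_range_succ, Finset.sum_eq_zero, zero_add, Nat.choose_self, Nat.cast_one, one_mul] at h3
  · have h4 : (0 : ℚ) ≤ γ (d / 2) := by
      by_contra hneg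
      push Not at hneg
      have := div_neg_of_neg_of_pos hneg (by positivity : (0 : ℚ) < 4 ^ (d / 2))
      linarith
    exact_mod_cast h4
  · intro i hi
    rw [Finset.mem_range] at hi
    rw [Nat.choose_eq_zero_of_lt hi]
    simp

end Pool.Agent.Results.MP_19e880_co.L2Class
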