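import Pool.Agent.Y365.FS.Sph

set_option autoImplicit false

/-!
# Gal's conjecture for flag homology spheres whose join factors have small dimension or few vertices

The condition on a join factor `C` of dimension `e - 1`: `e ≤ 3`, or at most `2 e + 6` vertices, or
at most `3 e` vertices; different factors may satisfy different conditions.
-/

namespace Pool.Agent.Results.MP_19e880_co.SmallFactors

open Pool.Agent.W497.FS

/-- Gal's conjecture for the flag homology spheres each of whose join factors `C`, of dimension
`e - 1` say, has dimension at most two or at most `max (2 e + 6) (3 e)` vertices. -/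
theorem result (k : Type) [Field k] (n d : ℕ) (S : Finset (Finset (Fin n)))
    (hS : IsFlagSphere k d S)
    (hC : ∀ C : Finset (Fin n), IsFactor S C → (∀ F ∈ S, F ⊆ C → F.card ≤ 3) ∨
      ∃ F ∈ S, F ⊆ C ∧ C.card ≤ max (2 * F.card + 6) (3 * F.card))
    (γ : ℕ → ℤ) (hγ : IsGamma d S γ) : ∀ i ≤ d / 2, 0 ≤ γ i :=
  Y365.FS.gal_factors hS hC hγ

end Pool.Agent.Results.MP_19e880_co.SmallFactors
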