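import Pool.Agent.Y365.FS.Sph

set_option autoImplicit false

/-!
# Gal's inequalities `γᵢ ≥ 0` for all flag homology spheres and all indices `i ≥ γ₁ - 3`

No condition on the dimension or on the number of vertices.  For `γ₁ ≤ 3` these are all the
inequalities of Gal's conjecture.  The proof uses the results of the starting library
`Pool.Agent.W497.FS` for few vertices and for small defect, the lower bound `3 e - 1` for the
number of vertices of a join irreducible factor of dimension `e - 1`, and a cone of polynomials
which is multiplicative under joins.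
-/

namespace Pool.Agent.Results.MP_19e880_co.TopPart

open Pool.Agent.W497.FS

/-- Let `S` be a flag homology `(d-1)`-sphere with `N` vertices, so that `γ₁ = N - 2 d`.  Then
`γᵢ ≥ 0` for all `i ≥ γ₁ - 3`; more precisely `γᵢ = 0` for `i > γ₁`, and `γᵢ` is `0` or `1` for
`i = γ₁`. -/
theorem result (k : Type) [Field k] (n d : ℕ) (S : Finset (Finset (Fin n)))
    (hS : IsFlagSphere k d S) (γ : ℕ → ℤ) (hγ : IsGamma d S γ) :
    ∀ i ≤ d / 2, (numVert S ≤ 2 * d + i + 3 → 0 ≤ γ i) ∧ (numVert S < 2 * d + i → γ i = 0) ∧
      (numVert S = 2 * d + i → γ i = 0 ∨ γ i = 1) :=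
  fun i hi => ⟨Y365.FS.gal_top hS hγ i hi, gal_vanish hS hγ i hi⟩

end Pool.Agent.Results.MP_19e880_co.TopPart
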